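import Mathlib
import Pool.Agent.Y17.N.Defs

/-!
Z17N-FIX, part 1: linear algebra over the field with two elements, the flips.
-/

set_option autoImplicit false
set_option linter.unusedSectionVars false

namespace Pool.Agent.Y961.BS

open Finset Matrix
open Pool.Agent.Z700 (pr Yd lres)
open Pool.Agent.Y17.N

/-! ### linear algebra -/

lemma two_cases (a : ZMod 2) : a = 0 ∨ a = 1 := by
  revert a
  decide

/-- the number of solutions of a linear system over the field with two elements is odd iff the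
determinant is not zero -/
lemma card_sol {n : Type*} [Fintype n] [DecidableEq n] (M : Matrix n n (ZMod 2))
    (v : n → ZMod 2) :
    Odd ((Finset.univ.filter fun x : n → ZMod 2 => M *ᵥ x = v).card) ↔ M.det ≠ 0 := by
  classical
  constructor
  · intro hodd hdet
    obtain ⟨k, hk0, hk⟩ := Matrix.exists_mulVec_eq_zero_iff.2 hdet
    have h2 : ∑ x ∈ Finset.univ.filter fun x : n → ZMod 2 => M *ᵥ x = v, (1 : ZMod 2) = 0 := by
      refine Finset.sum_involution (fun x _ => x + k) ?_ ?_ ?_ ?_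
      · intro x _
        decide
      · intro x _ _ h
        exact hk0 (by simpa using h)
      · intro x hx
        rw [Finset.mem_filter] at hx ⊢
        refine ⟨Finset.mem_univ _, ?_⟩
        rw [Matrix.mulVec_add, hk, add_zero, hx.2]
      · intro x _
        have h3 : k + k = 0 := by
          ext i
          rw [Pi.add_apply, Pi.zero_apply]
          rcases two_cases (k i) with h | h <;> rw [h] <;> decide
        rw [add_assoc, h3, add_zero]
    rw [Finset.sum_const, nsmul_eq_mul, mul_one] at h2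
    rw [← ZMod.natCast_eq_one_iff_odd, h2] at hodd
    exact absurd hodd (by decide)
  · intro hdet
    have hu : IsUnit M.det := isUnit_iff_ne_zero.2 hdet
    have h1 : (Finset.univ.filter fun x : n → ZMod 2 => M *ᵥ x = v) = {M⁻¹ *ᵥ v} := by
      ext x
      rw [Finset.mem_filter, Finset.mem_singleton]
      constructor
      · rintro ⟨-, h⟩
        rw [← h, Matrix.mulVec_mulVec, Matrix.nonsing_inv_mul _ hu, Matrix.one_mulVec]
      · rintro rfl
        refine ⟨Finset.mem_univ _, ?_⟩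
        rw [Matrix.mulVec_mulVec, Matrix.mul_nonsing_inv _ hu, Matrix.one_mulVec]
    rw [h1, Finset.card_singleton]
    exact odd_one

/-! ### the primes -/

lemma sp_mod4 {p : ℕ} (h : Sp p) : p % 4 = 1 := by
  have := h.2.1
  omega

lemma sp_odd {p : ℕ} (h : Sp p) : Odd p := by
  rw [Nat.odd_iff]
  have := h.2.1
  omega

lemma sp_pint {p : ℕ} (h : Sp p) : Prime (p : ℤ) := Nat.prime_iff_prime_int.1 h.1

lemma sp_ndvd14 {p : ℕ} (h : Sp p) : ¬ (p : ℤ) ∣ 14 := by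
  intro hd
  have h1 : p ∣ 14 := by exact_mod_cast hd
  have h2 := Nat.le_of_dvd (by norm_num) h1
  have h3 := h.2.1
  have h4 := h.1.two_le
  interval_cases p <;> omega

lemma sp_ndvd2 {p : ℕ} (h : Sp p) : ¬ (p : ℤ) ∣ 2 := fun hd =>
  sp_ndvd14 h (hd.trans ⟨7, by norm_num⟩)

lemma sp_ndvd3 {p : ℕ} (h : Sp p) : ¬ (p : ℤ) ∣ 3 := by
  intro hd
  have h1 : p ∣ 3 := by exact_mod_cast hd
  have h2 := Nat.le_of_dvd (by norm_num) h1
  have h3 := h.2.1
  have h4 := h.1.two_le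
  omega

lemma sp_ndvdq {p q : ℕ} (h : Sp p) (hq : Qr q) : ¬ (p : ℤ) ∣ (q : ℤ) := by
  intro hd
  have h1 : p ∣ q := by exact_mod_cast hd
  have h2 := (Nat.prime_dvd_prime_iff_eq h.1 hq.1).1 h1
  have h3 := h.2.1
  have h4 := hq.2.1
  omega

lemma jac_pr (J : Finset ℕ) (r : ℕ) :
    jacobiSym ((pr J : ℕ) : ℤ) r = ∏ p ∈ J, jacobiSym (p : ℤ) r := by
  classical
  induction J using Finset.induction_on with
  | empty => simp [pr, jacobiSym.one_left]
  | insert p J hp ih =>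
    have h1 : pr (insert p J) = p * pr J := by rw [pr, pr, Finset.prod_insert hp]
    rw [h1, Nat.cast_mul, jacobiSym.mul_left, ih, Finset.prod_insert hp]

lemma jac_pm {a : ℤ} {r : ℕ} (hr : Sp r) (h : ¬ (r : ℤ) ∣ a) :
    jacobiSym a r = 1 ∨ jacobiSym a r = -1 := by
  haveI : NeZero r := ⟨hr.1.ne_zero⟩
  rcases jacobiSym.trichotomy a r with h1 | h1 | h1
  · exfalso
    rw [jacobiSym.eq_zero_iff_not_coprime (b := r)] at h1
    · apply h1
      rw [Int.gcd_comm]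
      exact (Int.isCoprime_iff_gcd_eq_one).1 ((sp_pint hr).coprime_iff_not_dvd.2 h)
  · exact Or.inl h1
  · exact Or.inr h1

lemma jac_sqr {a : ℤ} {r : ℕ} (hr : Sp r) (h : ¬ (r : ℤ) ∣ a) :
    jacobiSym a r * jacobiSym a r = 1 := by
  rcases jac_pm hr h with h1 | h1 <;> rw [h1] <;> norm_num

lemma sp_ndvd {p r : ℕ} (hp : Sp p) (hr : Sp r) (h : p ≠ r) : ¬ (r : ℤ) ∣ (p : ℤ) := by
  intro hd
  have h1 : r ∣ p := by exact_mod_cast hd
  exact h ((Nat.prime_dvd_prime_iff_eq hr.1 hp.1).1 h1).symm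

lemma pr_ndvd {J : Finset ℕ} {r : ℕ} (hJ : ∀ p ∈ J, Sp p) (hr : Sp r) (h : r ∉ J) :
    ¬ (r : ℤ) ∣ ((pr J : ℕ) : ℤ) := by
  intro hd
  have h1 : r ∣ pr J := by exact_mod_cast hd
  rw [pr, (Nat.Prime.prime hr.1).dvd_finsetProd_iff] at h1
  obtain ⟨p, hp, h2⟩ := h1
  have h3 := (Nat.prime_dvd_prime_iff_eq hr.1 (hJ p hp).1).1 h2
  exact h (h3 ▸ hp)

lemma pr_erase {P : Finset ℕ} {p : ℕ} (hp : p ∈ P) : pr P = p * pr (P.erase p) := by
  exact (Finset.mul_prod_erase P (fun p => p) hp).symm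

section

variable {q : ℕ} {P : Finset ℕ} (hq : Qr q) (hP : ∀ p ∈ P, Sp p)

include hq hP

lemma ndvd2 {s : ℤ × ℤ} (hs : s ∈ SolQ q P) {p : ℕ} (hpP : p ∈ P) : ¬ (p : ℤ) ∣ s.2 := by
  rintro ⟨l, hl⟩
  have hpp := sp_pint (hP p hpP)
  have h1 := hs.1
  have h2 := pr_erase hpP
  rw [h2] at h1
  push_cast at h1
  have h3 : (p : ℤ) ∣ s.1 ^ 2 := by
    refine ⟨3 * q * pr (P.erase p) - 14 * (p * l ^ 2), ?_⟩
    rw [hl] at h1
    linear_combination -h1
  obtain ⟨k, hk⟩ := hpp.dvd_of_dvd_pow h3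
  rw [hk, hl] at h1
  have h4 : (p : ℤ) ∣ 3 * q * ((pr (P.erase p) : ℕ) : ℤ) := by
    refine ⟨k ^ 2 + 14 * l ^ 2, ?_⟩
    have h5 : (p : ℤ) ≠ 0 := hpp.ne_zero
    apply mul_left_cancel₀ h5
    linear_combination h1
  rcases hpp.dvd_or_dvd h4 with h6 | h6
  · rcases hpp.dvd_or_dvd h6 with h7 | h7
    · exact sp_ndvd3 (hP p hpP) h7
    · exact sp_ndvdq (hP p hpP) hq h7
  · exact pr_ndvd (fun r hr => hP r (Finset.mem_of_mem_erase hr)) (hP p hpP)
      (Finset.notMem_erase p P) h6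

omit hq hP in
lemma dvd_pr {p : ℕ} (hpP : p ∈ P) : (p : ℤ) ∣ (pr P : ℤ) := by
  have : p ∣ pr P := Finset.dvd_prod_of_mem _ hpP
  exact_mod_cast this

lemma ndvd1 {s : ℤ × ℤ} (hs : s ∈ SolQ q P) {p : ℕ} (hpP : p ∈ P) : ¬ (p : ℤ) ∣ s.1 := by
  intro hd
  have h1 := hs.1
  have hpp := sp_pint (hP p hpP)
  obtain ⟨k, hk⟩ := dvd_pr hpP
  obtain ⟨l, hl⟩ := hd
  have h2 : (p : ℤ) ∣ 14 * s.2 ^ 2 := ⟨3 * q * k - s.1 * l, by
    rw [hk] at h1
    linear_combination -h1 - s.1 * hl⟩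
  rcases hpp.dvd_or_dvd h2 with h3 | h3
  · exact sp_ndvd14 (hP p hpP) h3
  · exact ndvd2 hq hP hs hpP (hpp.dvd_of_dvd_pow h3)

lemma key {s s' : ℤ × ℤ} (hs : s ∈ SolQ q P) (hs' : s' ∈ SolQ q P) {p : ℕ} (hpP : p ∈ P) :
    (p : ℤ) ∣ s.1 * s'.2 - s'.1 * s.2 ∨ (p : ℤ) ∣ s.1 * s'.2 + s'.1 * s.2 := by
  apply (sp_pint (hP p hpP)).dvd_or_dvd
  obtain ⟨k, hk⟩ := dvd_pr hpP
  have h1 := hs.1
  have h2 := hs'.1
  rw [hk] at h1 h2
  exact ⟨3 * q * k * (s'.2 ^ 2 - s.2 ^ 2), by linear_combination -s'.2 ^ 2 * h1 + s.2 ^ 2 * h2⟩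

/-- not both signs -/
lemma notboth {s s' : ℤ × ℤ} (hs : s ∈ SolQ q P) (hs' : s' ∈ SolQ q P) {p : ℕ}
    (hpP : p ∈ P) (h1 : (p : ℤ) ∣ s.1 * s'.2 - s'.1 * s.2)
    (h2 : (p : ℤ) ∣ s.1 * s'.2 + s'.1 * s.2) : False := by
  have hpp := sp_pint (hP p hpP)
  have h3 : (p : ℤ) ∣ 2 * (s.1 * s'.2) := by
    have := dvd_add h1 h2
    have e : s.1 * s'.2 - s'.1 * s.2 + (s.1 * s'.2 + s'.1 * s.2) = 2 * (s.1 * s'.2) := by ring
    rwa [e] at this
  rcases hpp.dvd_or_dvd h3 with h3 | h3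
  · exact sp_ndvd2 (hP p hpP) h3
  rcases hpp.dvd_or_dvd h3 with h3 | h3
  · exact ndvd1 hq hP hs hpP h3
  · exact ndvd2 hq hP hs' hpP h3

/-- composition of congruences -/
lemma comp_same {s s' s'' : ℤ × ℤ} (hs : s ∈ SolQ q P) {p : ℕ} (hpP : p ∈ P)
    (h : ((p : ℤ) ∣ s.1 * s'.2 - s'.1 * s.2 ∧ (p : ℤ) ∣ s.1 * s''.2 - s''.1 * s.2) ∨
      ((p : ℤ) ∣ s.1 * s'.2 + s'.1 * s.2 ∧ (p : ℤ) ∣ s.1 * s''.2 + s''.1 * s.2)) :
    (p : ℤ) ∣ s'.1 * s''.2 - s''.1 * s'.2 := by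
  have hpp := sp_pint (hP p hpP)
  have h3 : (p : ℤ) ∣ s.2 * (s'.1 * s''.2 - s''.1 * s'.2) := by
    rcases h with ⟨⟨k, hk⟩, ⟨l, hl⟩⟩ | ⟨⟨k, hk⟩, ⟨l, hl⟩⟩
    · exact ⟨-k * s''.2 + l * s'.2, by linear_combination -s''.2 * hk + s'.2 * hl⟩
    · exact ⟨k * s''.2 - l * s'.2, by linear_combination s''.2 * hk - s'.2 * hl⟩
  exact (hpp.dvd_or_dvd h3).resolve_left (ndvd2 hq hP hs hpP)

lemma comp_diff {s s' s'' : ℤ × ℤ} (hs : s' ∈ SolQ q P) {p : ℕ} (hpP : p ∈ P)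
    (h1 : (p : ℤ) ∣ s.1 * s'.2 - s'.1 * s.2) (h2 : (p : ℤ) ∣ s'.1 * s''.2 + s''.1 * s'.2) :
    (p : ℤ) ∣ s.1 * s''.2 + s''.1 * s.2 := by
  have hpp := sp_pint (hP p hpP)
  obtain ⟨k, hk⟩ := h1
  obtain ⟨l, hl⟩ := h2
  have h3 : (p : ℤ) ∣ s'.2 * (s.1 * s''.2 + s''.1 * s.2) :=
    ⟨k * s''.2 + l * s.2, by linear_combination s''.2 * hk + s.2 * hl⟩
  exact (hpp.dvd_or_dvd h3).resolve_left (ndvd2 hq hP hs hpP)

lemma comp_diff' {s s' s'' : ℤ × ℤ} (hs : s' ∈ SolQ q P) {p : ℕ} (hpP : p ∈ P)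
    (h1 : (p : ℤ) ∣ s.1 * s'.2 + s'.1 * s.2) (h2 : (p : ℤ) ∣ s'.1 * s''.2 - s''.1 * s'.2) :
    (p : ℤ) ∣ s.1 * s''.2 + s''.1 * s.2 := by
  have hpp := sp_pint (hP p hpP)
  obtain ⟨k, hk⟩ := h1
  obtain ⟨l, hl⟩ := h2
  have h3 : (p : ℤ) ∣ s'.2 * (s.1 * s''.2 + s''.1 * s.2) :=
    ⟨k * s''.2 - l * s.2, by linear_combination s''.2 * hk - s.2 * hl⟩
  exact (hpp.dvd_or_dvd h3).resolve_left (ndvd2 hq hP hs hpP)

lemma comp_zero {s s' s'' : ℤ × ℤ} (hs : s' ∈ SolQ q P) {p : ℕ} (hpP : p ∈ P)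
    (h1 : (p : ℤ) ∣ s.1 * s'.2 - s'.1 * s.2) (h2 : (p : ℤ) ∣ s'.1 * s''.2 - s''.1 * s'.2) :
    (p : ℤ) ∣ s.1 * s''.2 - s''.1 * s.2 := by
  have hpp := sp_pint (hP p hpP)
  obtain ⟨k, hk⟩ := h1
  obtain ⟨l, hl⟩ := h2
  have h3 : (p : ℤ) ∣ s'.2 * (s.1 * s''.2 - s''.1 * s.2) :=
    ⟨k * s''.2 + l * s.2, by linear_combination s''.2 * hk + s.2 * hl⟩
  exact (hpp.dvd_or_dvd h3).resolve_left (ndvd2 hq hP hs hpP)

/-- the symbol of the change by the flips in `J` -/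
noncomputable def sgq (q : ℕ) (P J : Finset ℕ) (r : ℕ) : ℤ :=
  if r ∈ J then jacobiSym ((3 * q * pr (P \ J) : ℕ) : ℤ) r else jacobiSym ((pr J : ℕ) : ℤ) r

lemma flips (hq3 : q ≠ 3) (hb : S_SQB) {s : ℤ × ℤ} (hs : s ∈ SolQ q P) (J : Finset ℕ)
    (hJP : J ⊆ P) : ∃ s' ∈ SolQ q P, (∀ p ∈ J, (p : ℤ) ∣ s.1 * s'.2 + s'.1 * s.2) ∧
    (∀ p ∈ P, p ∉ J → (p : ℤ) ∣ s.1 * s'.2 - s'.1 * s.2) ∧
    (∀ r ∈ P, jacobiSym s'.2 r = jacobiSym s.2 r * sgq q P J r) := by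
  classical
  induction J using Finset.induction_on with
  | empty =>
    refine ⟨s, hs, by simp, fun p _ _ => by simp, fun r _ => ?_⟩
    simp [sgq, pr, jacobiSym.one_left]
  | insert p J hpJ ih =>
    have hpP : p ∈ P := hJP (Finset.mem_insert_self _ _)
    have hJP' : J ⊆ P := (Finset.subset_insert _ _).trans hJP
    obtain ⟨s', hs', h1, h2, h3⟩ := ih hJP'
    obtain ⟨s'', hs'', k1, k2, k3, k4⟩ := hb q P hq hq3 hP p hpP s' hs'
    have hPc : P \ J = insert p (P \ insert p J) := by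
      ext x
      simp only [Finset.mem_sdiff, Finset.mem_insert]
      constructor
      · rintro ⟨a, b⟩
        by_cases hx : x = p
        · exact Or.inl hx
        · exact Or.inr ⟨a, fun h => h.elim hx b⟩
      · rintro (rfl | ⟨a, b⟩)
        · exact ⟨hpP, hpJ⟩
        · exact ⟨a, fun h => b (Or.inr h)⟩
    have hpn : p ∉ P \ insert p J := by simp
    have hpr1 : pr (P \ J) = p * pr (P \ insert p J) := by
      rw [hPc, pr, pr, Finset.prod_insert hpn]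
    have hpr2 : pr (insert p J) = p * pr J := by rw [pr, pr, Finset.prod_insert hpJ]
    refine ⟨s'', hs'', ?_, ?_, ?_⟩
    · intro r hr
      rcases Finset.mem_insert.1 hr with rfl | hr
      · exact comp_diff hq hP hs' hpP (h2 r hpP hpJ) k1
      · have hrP := hJP' hr
        have hrp : r ≠ p := fun h => hpJ (h ▸ hr)
        exact comp_diff' hq hP hs' hrP (h1 r hr) (k2 r hrP hrp)
    · intro r hrP hr
      have hrp : r ≠ p := fun h => hr (h ▸ Finset.mem_insert_self _ _)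
      have hrJ : r ∉ J := fun h => hr (Finset.mem_insert_of_mem h)
      exact comp_zero hq hP hs' hrP (h2 r hrP hrJ) (k2 r hrP hrp)
    · intro r hrP
      by_cases hrp : r = p
      · subst hrp
        have e2 : P.erase r = J ∪ (P \ insert r J) := by
          ext x
          simp only [Finset.mem_erase, Finset.mem_union, Finset.mem_sdiff, Finset.mem_insert]
          constructor
          · rintro ⟨a, b⟩
            by_cases hx : x ∈ J
            · exact Or.inl hx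
            · exact Or.inr ⟨b, fun h => h.elim a hx⟩
          · rintro (h | ⟨a, b⟩)
            · exact ⟨fun hh => hpJ (hh ▸ h), hJP' h⟩
            · exact ⟨fun hh => b (Or.inl hh), a⟩
        have e3 : Disjoint J (P \ insert r J) := by
          rw [Finset.disjoint_left]
          intro x hx hx'
          exact (Finset.mem_sdiff.1 hx').2 (Finset.mem_insert_of_mem hx)
        have e4 : pr (P.erase r) = pr J * pr (P \ insert r J) := by
          rw [e2, pr, pr, pr, Finset.prod_union e3]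
        have e5 : jacobiSym ((pr J : ℕ) : ℤ) r * jacobiSym ((pr J : ℕ) : ℤ) r = 1 :=
          jac_sqr (hP r hpP) (pr_ndvd (fun t ht => hP t (hJP' ht)) (hP r hpP) hpJ)
        rw [k4, h3 r hpP, sgq, sgq, if_neg hpJ, if_pos (Finset.mem_insert_self _ _), e4]
        simp only [Nat.cast_mul, jacobiSym.mul_left]
        linear_combination (jacobiSym s.2 r * jacobiSym ((3 : ℕ) : ℤ) r * jacobiSym (q : ℤ) r *
          jacobiSym ((pr (P \ insert r J) : ℕ) : ℤ) r) * e5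
      · have e5 := jac_sqr (hP r hrP) (sp_ndvd (hP p hpP) (hP r hrP) (Ne.symm hrp))
        rw [k3 r hrP hrp, h3 r hrP]
        by_cases hrJ : r ∈ J
        · rw [sgq, sgq, if_pos hrJ, if_pos (Finset.mem_insert_of_mem hrJ), hpr1]
          simp only [Nat.cast_mul, jacobiSym.mul_left]
          linear_combination (jacobiSym s.2 r * jacobiSym ((3 : ℕ) : ℤ) r * jacobiSym (q : ℤ) r *
            jacobiSym ((pr (P \ insert p J) : ℕ) : ℤ) r) * e5
        · have hr' : r ∉ insert p J := by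
            rw [Finset.mem_insert]
            rintro (h | h)
            · exact hrp h
            · exact hrJ h
          rw [sgq, sgq, if_neg hrJ, if_neg hr', hpr2, Nat.cast_mul, jacobiSym.mul_left]
          ring

end

end Pool.Agent.Y961.BS
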