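import Mathlib
import Pool.Agent.Y17.N.Defs
import Pool.Agent.Y961.BS.Fix1

/-!
Z17N-FIX, part 2: the linear system of the remaining representations of `3 q m`.
-/

set_option autoImplicit false
set_option linter.unusedSectionVars false

namespace Pool.Agent.Y961.BS

open Finset Matrix
open Pool.Agent.Z700 (pr Yd lres sq7)
open Pool.Agent.Y17.N

/-! ### logarithms of signs -/

/-- the logarithm of a sign -/
def lg (a : ℤ) : ZMod 2 := if a = -1 then 1 else 0

lemma lg_mul {a b : ℤ} (ha : a = 1 ∨ a = -1) (hb : b = 1 ∨ b = -1) :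
    lg (a * b) = lg a + lg b := by
  rcases ha with rfl | rfl <;> rcases hb with rfl | rfl <;> decide

lemma lg_eq {a : ℤ} (ha : a = 1 ∨ a = -1) : a = 1 ↔ lg a = 0 := by
  rcases ha with rfl | rfl <;> decide

lemma pm_mul {a b : ℤ} (ha : a = 1 ∨ a = -1) (hb : b = 1 ∨ b = -1) :
    a * b = 1 ∨ a * b = -1 := by
  rcases ha with rfl | rfl <;> rcases hb with rfl | rfl <;> norm_num

lemma lg_prod {ι : Type*} (J : Finset ι) (f : ι → ℤ) (h : ∀ i ∈ J, f i = 1 ∨ f i = -1) :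
    (∏ i ∈ J, f i = 1 ∨ ∏ i ∈ J, f i = -1) ∧ lg (∏ i ∈ J, f i) = ∑ i ∈ J, lg (f i) := by
  classical
  induction J using Finset.induction_on with
  | empty => simp [lg]
  | insert a J ha ih =>
    obtain ⟨h1, h2⟩ := ih fun i hi => h i (Finset.mem_insert_of_mem hi)
    have h3 := h a (Finset.mem_insert_self _ _)
    rw [Finset.prod_insert ha, Finset.sum_insert ha]
    exact ⟨pm_mul h3 h1, by rw [lg_mul h3 h1, h2]⟩

lemma lres_lg {p r : ℕ} (hp : Sp p) (hr : Sp r) :
    ((lres r p : ℤ) : ZMod 2) = lg (jacobiSym (p : ℤ) r) := by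
  have h1 : jacobiSym (p : ℤ) r = jacobiSym (r : ℤ) p :=
    jacobiSym.quadratic_reciprocity_one_mod_four (sp_mod4 hp) (sp_odd hr)
  rw [lres, lg, ← h1]
  by_cases h : jacobiSym (p : ℤ) r = -1
  · simp [h]
  · simp [h]

lemma eQ_lg (a r : ℕ) : ((eQ a r : ℤ) : ZMod 2) = lg (jacobiSym (a : ℤ) r) := by
  rw [eQ, lg]
  split_ifs <;> simp

/-- the matrix of the system -/
def Am (q : ℕ) (P : Finset ℕ) : Matrix P P (ZMod 2) :=
  (Matrix.of fun i j : P => if i = j then
    (∑ k ∈ P.erase i.1, lres i k) + (eQ q i.1 + eQ 3 i.1) else -lres i j).map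
      (Int.castRingHom (ZMod 2))

lemma Am_det (q : ℕ) (P : Finset ℕ) :
    (Am q P).det = ((Yd lres (fun p => eQ q p + eQ 3 p) P : ℤ) : ZMod 2) := by
  rw [Am, ← RingHom.mapMatrix_apply, ← RingHom.map_det]
  rfl

section

variable {q : ℕ} {P : Finset ℕ} (hq : Qr q) (hP : ∀ p ∈ P, Sp p)

include hq hP

lemma sgq_lg {J : Finset ℕ} (hJ : J ⊆ P) (r : P) :
    (sgq q P J r.1 = 1 ∨ sgq q P J r.1 = -1) ∧
    lg (sgq q P J r.1) = (Am q P *ᵥ fun j : P => if j.1 ∈ J then 1 else 0) r := by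
  classical
  have hr := r.2
  have hSr := hP _ hr
  have hneg : ∀ x : ZMod 2, -x = x := by decide
  -- the right hand side
  have e1 : (Am q P *ᵥ fun j : P => if j.1 ∈ J then 1 else 0) r =
      ∑ j ∈ P.erase r.1, lg (jacobiSym (j : ℤ) r.1) *
        ((if r.1 ∈ J then 1 else 0) + (if j ∈ J then 1 else 0)) +
      (lg (jacobiSym (q : ℤ) r.1) + lg (jacobiSym ((3 : ℕ) : ℤ) r.1)) *
        (if r.1 ∈ J then 1 else 0) := by
    have e2 : (Am q P *ᵥ fun j : P => if j.1 ∈ J then 1 else 0) r =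
        ∑ j ∈ P, (if r.1 = j then
          (∑ k ∈ P.erase r.1, lg (jacobiSym (k : ℤ) r.1)) +
            (lg (jacobiSym (q : ℤ) r.1) + lg (jacobiSym ((3 : ℕ) : ℤ) r.1))
          else lg (jacobiSym (j : ℤ) r.1)) * (if j ∈ J then (1 : ZMod 2) else 0) := by
      rw [← Finset.sum_coe_sort P, Matrix.mulVec, dotProduct]
      refine Finset.sum_congr rfl fun j _ => ?_
      congr 1
      rw [Am, Matrix.map_apply, Matrix.of_apply]
      by_cases hj : r = j
      · have hj' : r.1 = j.1 := congrArg Subtype.val hj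
        rw [if_pos hj, if_pos hj', eq_intCast, Int.cast_add, Int.cast_sum, Int.cast_add, eQ_lg,
          eQ_lg]
        congr 1
        refine Finset.sum_congr rfl fun k hk => ?_
        exact lres_lg (hP k (Finset.mem_of_mem_erase hk)) hSr
      · have hj' : ¬ r.1 = j.1 := fun h => hj (Subtype.ext h)
        rw [if_neg hj, if_neg hj', eq_intCast, Int.cast_neg, hneg, lres_lg (hP j.1 j.2) hSr]
    rw [e2, ← Finset.add_sum_erase P _ hr, if_pos rfl, add_mul, Finset.sum_mul]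
    have e3 : ∑ j ∈ P.erase r.1, (if r.1 = j then
          (∑ k ∈ P.erase r.1, lg (jacobiSym (k : ℤ) r.1)) +
            (lg (jacobiSym (q : ℤ) r.1) + lg (jacobiSym ((3 : ℕ) : ℤ) r.1))
          else lg (jacobiSym (j : ℤ) r.1)) * (if j ∈ J then (1 : ZMod 2) else 0) =
        ∑ j ∈ P.erase r.1, lg (jacobiSym (j : ℤ) r.1) * (if j ∈ J then (1 : ZMod 2) else 0) := by
      refine Finset.sum_congr rfl fun j hj => ?_
      rw [if_neg (Finset.ne_of_mem_erase hj).symm]
    rw [e3]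
    simp only [mul_add]
    rw [Finset.sum_add_distrib]
    ring
  rw [e1]
  by_cases hrJ : r.1 ∈ J
  · have h3 : jacobiSym ((3 : ℕ) : ℤ) r.1 = 1 ∨ jacobiSym ((3 : ℕ) : ℤ) r.1 = -1 :=
      jac_pm hSr (by exact_mod_cast sp_ndvd3 hSr)
    have hq' : jacobiSym (q : ℤ) r.1 = 1 ∨ jacobiSym (q : ℤ) r.1 = -1 :=
      jac_pm hSr (sp_ndvdq hSr hq)
    have hpr := lg_prod (P \ J) (fun j : ℕ => jacobiSym (j : ℤ) r.1) (fun j hj => by
      have hj1 := Finset.mem_sdiff.1 hj
      exact jac_pm hSr (sp_ndvd (hP j hj1.1) hSr (fun h => hj1.2 (h ▸ hrJ))))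
    have e4 : sgq q P J r.1 = (jacobiSym ((3 : ℕ) : ℤ) r.1 * jacobiSym (q : ℤ) r.1) *
        ∏ j ∈ P \ J, jacobiSym (j : ℤ) r.1 := by
      rw [sgq, if_pos hrJ, Nat.cast_mul, Nat.cast_mul, jacobiSym.mul_left, jacobiSym.mul_left,
        jac_pr]
    have hsub : P \ J ⊆ P.erase r.1 := by
      intro x hx
      have hx1 := Finset.mem_sdiff.1 hx
      exact Finset.mem_erase.2 ⟨fun h => hx1.2 (h ▸ hrJ), hx1.1⟩
    refine ⟨by rw [e4]; exact pm_mul (pm_mul h3 hq') hpr.1, ?_⟩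
    rw [e4, lg_mul (pm_mul h3 hq') hpr.1, lg_mul h3 hq', hpr.2, if_pos hrJ, mul_one]
    have e5 : ∑ j ∈ P.erase r.1, lg (jacobiSym (j : ℤ) r.1) *
        (1 + (if j ∈ J then (1 : ZMod 2) else 0)) = ∑ j ∈ P \ J, lg (jacobiSym (j : ℤ) r.1) := by
      rw [← Finset.sum_subset hsub]
      · refine Finset.sum_congr rfl fun j hj => ?_
        rw [if_neg (Finset.mem_sdiff.1 hj).2, add_zero, mul_one]
      · intro j hj hj'
        have hjP := Finset.mem_of_mem_erase hj
        have hjJ : j ∈ J := by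
          by_contra h
          exact hj' (Finset.mem_sdiff.2 ⟨hjP, h⟩)
        rw [if_pos hjJ]
        have : (1 : ZMod 2) + 1 = 0 := by decide
        rw [this, mul_zero]
    rw [e5]
    ring
  · have hpr := lg_prod J (fun j : ℕ => jacobiSym (j : ℤ) r.1) (fun j hj => by
      exact jac_pm hSr (sp_ndvd (hP j (hJ hj)) hSr (fun h => hrJ (h ▸ hj))))
    have e4 : sgq q P J r.1 = ∏ j ∈ J, jacobiSym (j : ℤ) r.1 := by
      rw [sgq, if_neg hrJ, jac_pr]
    have hsub : J ⊆ P.erase r.1 := by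
      intro x hx
      exact Finset.mem_erase.2 ⟨fun h => hrJ (h ▸ hx), hJ hx⟩
    refine ⟨by rw [e4]; exact hpr.1, ?_⟩
    rw [e4, hpr.2, if_neg hrJ, mul_zero, add_zero, ← Finset.sum_subset hsub]
    · refine Finset.sum_congr rfl fun j hj => ?_
      rw [if_pos hj, zero_add, mul_one]
    · intro j hj hj'
      rw [if_neg hj', zero_add, mul_zero]

end

end Pool.Agent.Y961.BS
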