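import Mathlib
import Pool.Agent.Y17.N.Defs
import Pool.Agent.Y961.BS.Fix2

/-!
Z17N-FIX, part 3: the parity of the number of remaining representations of `3 q m`.
-/

set_option autoImplicit false
set_option linter.unusedSectionVars false

namespace Pool.Agent.Y961.BS

open Finset Matrix
open Pool.Agent.Z700 (pr Yd lres sq7)
open Pool.Agent.Y17.N

lemma jac_neg {y : ℤ} {p : ℕ} (hp : Sp p) : jacobiSym (-y) p = jacobiSym y p := by
  rw [jacobiSym.neg _ (sp_odd hp), ZMod.χ₄_nat_one_mod_four (sp_mod4 hp), one_mul]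

lemma jac_abs {y : ℤ} {p : ℕ} (hp : Sp p) : jacobiSym (y.natAbs : ℤ) p = jacobiSym y p := by
  rcases le_total 0 y with h7 | h7
  · rw [Int.natAbs_of_nonneg h7]
  · rw [Int.ofNat_natAbs_of_nonpos h7, jac_neg hp]

lemma mem_Ioo_of_sq {b n : ℤ} (h : b ^ 2 < n) : b ∈ Ioo (-n) n := by
  rw [Finset.mem_Ioo]
  have h1 := Int.le_self_sq b
  have h2 := Int.le_self_sq (-b)
  rw [neg_sq] at h2
  constructor <;> linarith

open Classical in
/-- the remaining representations -/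
noncomputable def FS (q : ℕ) (P : Finset ℕ) : Finset (ℤ × ℤ) :=
  ((Ioo (-(3 * (q : ℤ) * (pr P : ℤ))) (3 * (q : ℤ) * (pr P : ℤ))) ×ˢ
    (Ioo (-(3 * (q : ℤ) * (pr P : ℤ))) (3 * (q : ℤ) * (pr P : ℤ)))).filter
    fun s => s ∈ SolQ q P ∧ ∀ p ∈ P, jacobiSym s.2 p = 1

instance : Fact (Nat.Prime 7) := ⟨by norm_num⟩

lemma cq_sq {q : ℕ} (h : Qr q) : cq q ^ 2 = -(q : ZMod 7) := by
  have h1 : (q : ZMod 7) = ((q % 7 : ℕ) : ZMod 7) := by rw [ZMod.natCast_mod]
  rw [h1]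
  rcases h.2.2 with h2 | h2 | h2 <;> simp only [cq, h2] <;> decide

lemma sq7_sq {p : ℕ} (h : Sp p) : sq7 p ^ 2 = (p : ZMod 7) := by
  have h1 : (p : ZMod 7) = ((p % 7 : ℕ) : ZMod 7) := by rw [ZMod.natCast_mod]
  rw [h1]
  rcases h.2.2 with h2 | h2 | h2 <;> simp only [sq7, h2] <;> decide

section

variable {q : ℕ} {P : Finset ℕ} (hq : Qr q) (hq3 : q ≠ 3) (hP : ∀ p ∈ P, Sp p)

include hq hP

lemma bq_sq : bq q P ^ 2 = -((q * pr P : ℕ) : ZMod 7) := by
  rw [bq, mul_pow, cq_sq hq, ← Finset.prod_pow, Finset.prod_congr rfl fun p hp => sq7_sq (hP p hp),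
    pr]
  push_cast
  ring

include hq3

lemma nine_ndvd : ¬ (9 : ℤ) ∣ 3 * (q : ℤ) * (pr P : ℤ) := by
  rintro ⟨k, hk⟩
  have h1 : (3 : ℤ) ∣ (q : ℤ) * (pr P : ℤ) := ⟨k, by linarith⟩
  rcases Int.prime_three.dvd_or_dvd h1 with h2 | h2
  · have h3 : 3 ∣ q := by exact_mod_cast h2
    exact hq3 ((Nat.prime_dvd_prime_iff_eq Nat.prime_three hq.1).1 h3).symm
  · have h3 : 3 ∣ pr P := by exact_mod_cast h2
    rw [pr, (Nat.Prime.prime Nat.prime_three).dvd_finsetProd_iff] at h3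
    obtain ⟨p, hp, h4⟩ := h3
    have h5 := (Nat.prime_dvd_prime_iff_eq Nat.prime_three (hP p hp).1).1 h4
    have h6 := (hP p hp).2.1
    omega

lemma sol_ndvd3 {s : ℤ × ℤ} (hs : s ∈ SolQ q P) : ¬ (3 : ℤ) ∣ s.1 := by
  intro hd
  have h1 : (3 : ℤ) ∣ s.2 := by
    have := dvd_add hs.2.2 hd
    rwa [sub_add_cancel] at this
  obtain ⟨k, hk⟩ := hd
  obtain ⟨l, hl⟩ := h1
  apply nine_ndvd hq hq3 hP
  rw [hs.1, hk, hl]
  exact ⟨k ^ 2 + 14 * l ^ 2, by ring⟩

lemma sol_ne {s : ℤ × ℤ} (hs : s ∈ SolQ q P) : s.2 ≠ 0 := by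
  intro h
  have h1 := hs.2.2
  rw [h, zero_sub] at h1
  exact sol_ndvd3 hq hq3 hP hs ((dvd_neg).1 h1)

lemma sol_bd {s : ℤ × ℤ} (hs : s ∈ SolQ q P) :
    s.1 ^ 2 < 3 * (q : ℤ) * (pr P : ℤ) ∧ s.2 ^ 2 < 3 * (q : ℤ) * (pr P : ℤ) := by
  have h1 := hs.1
  have h2 := sol_ne hq hq3 hP hs
  have h3 : 0 < s.2 ^ 2 := by positivity
  have h4 : 0 ≤ s.1 ^ 2 := by positivity
  constructor <;> linarith

lemma mem_FS {s : ℤ × ℤ} : s ∈ FS q P ↔ s ∈ SolQ q P ∧ ∀ p ∈ P, jacobiSym s.2 p = 1 := by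
  classical
  rw [FS, Finset.mem_filter, Finset.mem_product]
  constructor
  · exact fun h => h.2
  · exact fun h => ⟨⟨mem_Ioo_of_sq (sol_bd hq hq3 hP h.1).1, mem_Ioo_of_sq (sol_bd hq hq3 hP h.1).2⟩,
      h⟩

omit hq hq3 hP in
lemma mem_flt {α : Type} {p : α → Prop} (inst : DecidablePred p) {s : Finset α} {a : α} :
    a ∈ @Finset.filter α p inst s ↔ a ∈ s ∧ p a := Finset.mem_filter

omit hq hq3 hP in
lemma mem_FixQ {b : ℤ} : b ∈ FixQ q P ↔
    b ∈ Ioo (-(3 * (q : ℤ) * (pr P : ℤ))) (3 * (q : ℤ) * (pr P : ℤ)) ∧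
      ((b : ZMod 7) = -(2 * bq q P) ∧
      ∃ y ∈ range (3 * q * pr P), 3 * (q : ℤ) * (pr P : ℤ) = b ^ 2 + 14 * (y : ℤ) ^ 2 ∧
        ∀ p ∈ P, jacobiSym y p = 1) :=
  mem_flt _

lemma fs_inj {s s' : ℤ × ℤ} (hs : s ∈ SolQ q P) (hs' : s' ∈ SolQ q P)
    (h : s.1 = s'.1) : s = s' := by
  have h1 := hs.1
  have h2 := hs'.1
  rw [← h] at h2
  have h3 : (s.2 - s'.2) * (s.2 + s'.2) = 0 := by nlinarith
  rcases mul_eq_zero.1 h3 with h4 | h4
  · exact Prod.ext h (by linarith)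
  · exfalso
    have h5 := hs.2.2
    have h6 := hs'.2.2
    rw [← h] at h6
    have h7 : s'.2 = -s.2 := by linarith
    rw [h7] at h6
    apply sol_ndvd3 hq hq3 hP hs
    obtain ⟨k, hk⟩ := h5
    obtain ⟨l, hl⟩ := h6
    exact ⟨s.1 + k + l, by linarith⟩

lemma mod7 {b y : ℤ} (h : 3 * (q : ℤ) * (pr P : ℤ) = b ^ 2 + 14 * y ^ 2) :
    (b : ZMod 7) = -(2 * bq q P) ∨ ((-b : ℤ) : ZMod 7) = -(2 * bq q P) := by
  have h2 := congrArg (fun x : ℤ => (x : ZMod 7)) h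
  simp only [Int.cast_mul, Int.cast_add, Int.cast_pow, Int.cast_natCast, Int.cast_ofNat] at h2
  have h3 : (14 : ZMod 7) = 0 := by decide
  have h4 : (3 : ZMod 7) = -4 := by decide
  rw [h3, zero_mul, add_zero, h4] at h2
  have h5 : ((b : ZMod 7)) ^ 2 = (-(2 * bq q P)) ^ 2 := by
    rw [neg_sq, mul_pow, bq_sq hq hP, ← h2]
    push_cast
    ring
  rcases sq_eq_sq_iff_eq_or_eq_neg.1 h5 with h6 | h6
  · exact Or.inl h6
  · right
    rw [Int.cast_neg, h6, neg_neg]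

lemma c_ne : (-(2 * bq q P) : ZMod 7) ≠ 0 := by
  have h1 : bq q P ≠ 0 := by
    rw [bq]
    refine mul_ne_zero ?_ (Finset.prod_ne_zero_iff.2 fun p _ => ?_)
    · unfold cq
      split_ifs <;> decide
    · unfold sq7
      split_ifs <;> decide
  exact neg_ne_zero.2 (mul_ne_zero (by decide) h1)

lemma fix_card : (FixQ q P).card = (FS q P).card := by
  classical
  have h14 : 3 * q * pr P % 8 = 1 := by
    have h1 : pr P % 8 = 1 := by
      rw [pr]
      have : ∀ J : Finset ℕ, (∀ p ∈ J, p % 8 = 1) → (∏ p ∈ J, p) % 8 = 1 := by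
        intro J
        induction J using Finset.induction_on with
        | empty => intro _; simp
        | insert a J ha ih =>
          intro h
          rw [Finset.prod_insert ha, Nat.mul_mod, h a (Finset.mem_insert_self _ _),
            ih fun p hp => h p (Finset.mem_insert_of_mem hp)]
      exact this P fun p hp => (hP p hp).2.1
    have h2 := hq.2.1
    rw [Nat.mul_mod, Nat.mul_mod 3 q, h2, h1]
  symm
  refine Finset.card_bij (fun s _ => if (s.1 : ZMod 7) = -(2 * bq q P) then s.1 else -s.1) ?_ ?_ ?_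
  · intro s hs
    rw [mem_FS hq hq3 hP] at hs
    obtain ⟨hs, h5⟩ := hs
    have hex : ∃ y ∈ range (3 * q * pr P), 3 * (q : ℤ) * (pr P : ℤ) = s.1 ^ 2 + 14 * (y : ℤ) ^ 2 ∧
        ∀ p ∈ P, jacobiSym y p = 1 := by
      refine ⟨s.2.natAbs, ?_, ?_, ?_⟩
      · rw [Finset.mem_range]
        have h3 := Finset.mem_Ioo.1 (mem_Ioo_of_sq (sol_bd hq hq3 hP hs).2)
        have h4 : ((3 * q * pr P : ℕ) : ℤ) = 3 * (q : ℤ) * (pr P : ℤ) := by push_cast; ring
        rw [← h4] at h3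
        omega
      · rw [Int.natCast_natAbs, sq_abs]
        exact hs.1
      · intro p hp
        rw [jac_abs (hP p hp)]
        exact h5 p hp
    rw [mem_FixQ]
    split_ifs with h
    · exact ⟨mem_Ioo_of_sq (sol_bd hq hq3 hP hs).1, h, hex⟩
    · refine ⟨mem_Ioo_of_sq (by rw [neg_sq]; exact (sol_bd hq hq3 hP hs).1),
        (mod7 hq hq3 hP hs.1).resolve_left h, ?_⟩
      rw [neg_sq]
      exact hex
  · intro s hs s' hs' h
    rw [mem_FS hq hq3 hP] at hs hs'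
    have h4 := hs.1.2.1
    have h4' := hs'.1.2.1
    refine fs_inj hq hq3 hP hs.1 hs'.1 ?_
    split_ifs at h <;> omega
  · intro b hb
    rw [mem_FixQ] at hb
    obtain ⟨hb, h2, y, hy, h4, h5⟩ := hb
    -- `b` is odd
    have hbo : b % 4 = 1 ∨ (-b) % 4 = 1 := by
      have h6 : (b ^ 2 + 14 * (y : ℤ) ^ 2) % 2 = 1 := by
        rw [← h4]
        have h7 : ((3 * q * pr P : ℕ) : ℤ) = 3 * (q : ℤ) * (pr P : ℤ) := by push_cast; ring
        rw [← h7]
        omega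
      have h8 : b % 2 = 1 := by
        rcases Int.emod_two_eq_zero_or_one b with h | h
        · exfalso
          have h9 : b ^ 2 % 2 = 0 := by rw [pow_two, Int.mul_emod, h]; norm_num
          omega
        · exact h
      omega
    obtain ⟨b', hb', hbb⟩ : ∃ b' : ℤ, b' % 4 = 1 ∧ (b' = b ∨ b' = -b) := by
      rcases hbo with h | h
      · exact ⟨b, h, Or.inl rfl⟩
      · exact ⟨-b, h, Or.inr rfl⟩
    have h4' : 3 * (q : ℤ) * (pr P : ℤ) = b' ^ 2 + 14 * (y : ℤ) ^ 2 := by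
      rcases hbb with rfl | rfl
      · exact h4
      · rw [neg_sq]
        exact h4
    have h6 : (3 : ℤ) ∣ (b' - y) * (b' + y) :=
      ⟨(q : ℤ) * (pr P : ℤ) - 5 * (y : ℤ) ^ 2, by linear_combination -h4'⟩
    obtain ⟨y', hy', hs', hj⟩ : ∃ y' : ℤ, (y' : ℤ) ^ 2 = (y : ℤ) ^ 2 ∧ (3 : ℤ) ∣ y' - b' ∧
        ∀ p ∈ P, jacobiSym y' p = 1 := by
      rcases Int.prime_three.dvd_or_dvd h6 with h7 | h7
      · refine ⟨y, rfl, ?_, h5⟩
        have := (dvd_neg).2 h7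
        rwa [neg_sub] at this
      · refine ⟨-y, neg_sq _, ?_, fun p hp => ?_⟩
        · have := (dvd_neg).2 h7
          have e : -(b' + (y : ℤ)) = -(y : ℤ) - b' := by ring
          rwa [e] at this
        · rw [jac_neg (hP p hp), h5 p hp]
    refine ⟨(b', y'), ?_, ?_⟩
    · rw [mem_FS hq hq3 hP]
      exact ⟨⟨by rw [hy']; exact h4', hb', hs'⟩, hj⟩
    · rcases hbb with rfl | rfl
      · rw [if_pos h2]
      · have h8 : ((-b : ℤ) : ZMod 7) ≠ -(2 * bq q P) := by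
          intro h9
          have h10 : (b : ZMod 7) = -(b : ZMod 7) := by
            rw [← Int.cast_neg, h9]
            exact h2
          have h11 : ∀ c : ZMod 7, c = -c → c = 0 := by decide
          exact c_ne hq hq3 hP (by rw [← h2]; exact h11 _ h10)
        rw [if_neg h8, neg_neg]

/-- the vector of a representation -/
noncomputable def Ph (P : Finset ℕ) (s0 s : ℤ × ℤ) : P → ZMod 2 := by
  classical
  exact fun r => if (r.1 : ℤ) ∣ s0.1 * s.2 - s.1 * s0.2 then 0 else 1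

lemma Ph_spec (hb : S_SQB) (hc : S_SQC) {s0 s : ℤ × ℤ} (h0 : s0 ∈ SolQ q P) (hs : s ∈ SolQ q P) :
    (∀ p ∈ P, jacobiSym s.2 p = 1) ↔
      Am q P *ᵥ Ph P s0 s = fun r : P => lg (jacobiSym s0.2 r.1) := by
  classical
  have hJP : (P.filter fun p : ℕ => ¬ (p : ℤ) ∣ s0.1 * s.2 - s.1 * s0.2) ⊆ P :=
    Finset.filter_subset _ _
  set J : Finset ℕ := P.filter fun p : ℕ => ¬ (p : ℤ) ∣ s0.1 * s.2 - s.1 * s0.2 with hJ
  obtain ⟨s', hs', h1, h2, h3⟩ := flips hq hP hq3 hb h0 J hJP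
  have he : s = s' := by
    refine hc q P hq hq3 hP s hs s' hs' fun p hpP => comp_same hq hP h0 hpP ?_
    by_cases hd : (p : ℤ) ∣ s0.1 * s.2 - s.1 * s0.2
    · left
      refine ⟨hd, h2 p hpP ?_⟩
      rw [hJ, Finset.mem_filter]
      exact fun h => h.2 hd
    · right
      refine ⟨(key hq hP h0 hs hpP).resolve_left hd, h1 p ?_⟩
      rw [hJ, Finset.mem_filter]
      exact ⟨hpP, hd⟩
  subst he
  have hx : Ph P s0 s = fun j : P => if j.1 ∈ J then (1 : ZMod 2) else 0 := by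
    funext j
    rw [Ph]
    by_cases hd : (j.1 : ℤ) ∣ s0.1 * s.2 - s.1 * s0.2
    · rw [if_pos hd, if_neg]
      rw [hJ, Finset.mem_filter]
      exact fun h => h.2 hd
    · rw [if_neg hd, if_pos]
      rw [hJ, Finset.mem_filter]
      exact ⟨j.2, hd⟩
  rw [hx]
  have hlin : ∀ r : P, (jacobiSym s.2 r.1 = 1 ↔
      (Am q P *ᵥ fun j : P => if j.1 ∈ J then (1 : ZMod 2) else 0) r =
        lg (jacobiSym s0.2 r.1)) := by
    intro r
    have h4 := jac_pm (hP _ r.2) (ndvd2 hq hP h0 r.2)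
    obtain ⟨h5, h6⟩ := sgq_lg hq hP hJP r
    rw [h3 r.1 r.2, lg_eq (pm_mul h4 h5), lg_mul h4 h5, h6]
    generalize lg (jacobiSym s0.2 r.1) = a
    generalize (Am q P *ᵥ fun j : P => if j.1 ∈ J then (1 : ZMod 2) else 0) r = b
    revert a b
    decide
  constructor
  · intro h
    funext r
    exact (hlin r).1 (h r.1 r.2)
  · intro h p hp
    exact (hlin ⟨p, hp⟩).2 (congrFun h ⟨p, hp⟩)

lemma fs_card (hb : S_SQB) (hc : S_SQC) {s0 : ℤ × ℤ} (h0 : s0 ∈ SolQ q P) :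
    (FS q P).card = (Finset.univ.filter fun x : P → ZMod 2 =>
      Am q P *ᵥ x = fun r : P => lg (jacobiSym s0.2 r.1)).card := by
  classical
  refine Finset.card_bij (fun s _ => Ph P s0 s) ?_ ?_ ?_
  · intro s hs
    rw [mem_FS hq hq3 hP] at hs
    rw [Finset.mem_filter]
    exact ⟨Finset.mem_univ _, (Ph_spec hq hq3 hP hb hc h0 hs.1).1 hs.2⟩
  · intro s hs s' hs' h
    rw [mem_FS hq hq3 hP] at hs hs'
    refine hc q P hq hq3 hP s hs.1 s' hs'.1 fun p hpP => comp_same hq hP h0 hpP ?_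
    have h1 := congrFun h ⟨p, hpP⟩
    simp only [Ph] at h1
    by_cases hd : (p : ℤ) ∣ s0.1 * s.2 - s.1 * s0.2
    · left
      refine ⟨hd, ?_⟩
      by_contra hd'
      rw [if_pos hd, if_neg hd'] at h1
      exact absurd h1 (by decide)
    · right
      refine ⟨(key hq hP h0 hs.1 hpP).resolve_left hd, (key hq hP h0 hs'.1 hpP).resolve_left ?_⟩
      intro hd'
      rw [if_neg hd, if_pos hd'] at h1
      exact absurd h1 (by decide)
  · intro x hx
    rw [Finset.mem_filter] at hx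
    have hJP : (P.filter fun p : ℕ => ∃ h : p ∈ P, x ⟨p, h⟩ = 1) ⊆ P := Finset.filter_subset _ _
    set J : Finset ℕ := P.filter fun p : ℕ => ∃ h : p ∈ P, x ⟨p, h⟩ = 1 with hJ
    obtain ⟨s', hs', h1, h2, h3⟩ := flips hq hP hq3 hb h0 J hJP
    have hPh : Ph P s0 s' = x := by
      funext r
      rw [Ph]
      by_cases hr : x r = 1
      · have hrJ : r.1 ∈ J := by
          rw [hJ, Finset.mem_filter]
          exact ⟨r.2, r.2, hr⟩
        rw [if_neg, hr]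
        exact fun hd => notboth hq hP h0 hs' r.2 hd (h1 r.1 hrJ)
      · have hrJ : r.1 ∉ J := by
          rw [hJ, Finset.mem_filter]
          rintro ⟨-, h, h'⟩
          exact hr h'
        rw [if_pos (h2 r.1 r.2 hrJ), ((two_cases (x r)).resolve_right hr)]
    refine ⟨s', ?_, hPh⟩
    rw [mem_FS hq hq3 hP]
    refine ⟨hs', (Ph_spec hq hq3 hP hb hc h0 hs').2 ?_⟩
    rw [hPh]
    exact hx.2

end

/-- FIXQ: the parity of the number of remaining representations -/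
theorem t_FIXQ (ha : S_SQA) (hb : S_SQB) (hc : S_SQC) : S_FIXQ := by
  intro q P hq hq3 hP
  obtain ⟨s0, h0⟩ := ha q P hq hq3 hP
  rw [fix_card hq hq3 hP, fs_card hq hq3 hP hb hc h0, card_sol, Am_det, ← ZMod.intCast_eq_one_iff_odd]
  rcases two_cases ((Yd lres (fun p => eQ q p + eQ 3 p) P : ℤ) : ZMod 2) with h | h <;> rw [h] <;>
    simp

end Pool.Agent.Y961.BS
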